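import Pool.Agent.X119.Dens

/-!
# The density of the primes in the Oppermann intervals around almost all of their primes

For ALL large `n` and almost all primes `p` in `(n ^ 2 - n, n ^ 2 + n]`: both intervals `(p, p + h]` and `(p - h, p]`
contain the right order of primes for all `C log n ≤ h ≤ n`, and up to `δ` the primes have a constant density in
`(p - h, p + h]` for all `h = 2 ^ j` from `log n` to `n` with at most `B (δ, ε)` exceptions `j`.
-/

set_option autoImplicit false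

namespace Pool.Agent.Results.MP_a8fbd7_nt.BalancedDensities

open Finset Filter

/-- the number of primes in `(a, b]` -/
def cnt (a b : ℕ) : ℕ := ((Ioc a b).filter Nat.Prime).card

/-- For all `C log n ≤ h ≤ n` both intervals `(p, p + h]` and `(p - h, p]` contain between `h / (C log n)` and
`C h / log n` primes. -/
def Order (C : ℝ) (n p : ℕ) : Prop :=
  ∀ h : ℕ, C * Real.log n ≤ h → h ≤ n →
    (h / (C * Real.log n) ≤ cnt p (p + h) ∧ (cnt p (p + h) : ℝ) ≤ C * h / Real.log n) ∧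
    (h / (C * Real.log n) ≤ cnt (p - h) p ∧ (cnt (p - h) p : ℝ) ≤ C * h / Real.log n)

/-- Up to `δ` the primes have a constant density `lam / log n`, `0 ≤ lam ≤ C`, in `(p - D, p + D]`. -/
def ConstantDensity (C δ : ℝ) (n p D : ℕ) : Prop :=
  ∃ lam : ℝ, 0 ≤ lam ∧ lam ≤ C ∧ ∀ u v : ℕ, p ≤ u + D → u ≤ v → v ≤ p + D →
    |(cnt u v : ℝ) - lam * ((v : ℝ) - u) / Real.log n| ≤ δ * D / Real.log n

open Classical in
/-- the number of the dyadic scales `log n ≤ 2 ^ j ≤ n` at which the density is not constant -/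
noncomputable def badScales (C δ : ℝ) (n p : ℕ) : ℕ :=
  ((range (Nat.log 2 n + 1)).filter (fun j => Real.log n ≤ (2 : ℝ) ^ j ∧
    ¬ ConstantDensity C δ n p (2 ^ j))).card

open Classical in
/-- **Balanced densities in the Oppermann intervals.** -/
theorem result (ε : ℝ) (hε : 0 < ε) :
    ∃ C : ℝ, 1 ≤ C ∧ ∀ δ : ℝ, 0 < δ → ∃ B : ℕ, ∀ᶠ n : ℕ in atTop,
      (((Ioc (n ^ 2 - n) (n ^ 2 + n)).filter (fun p => p.Prime ∧
        ¬ (Order C n p ∧ badScales C δ n p ≤ B))).card : ℝ) ≤ ε * n / Real.log n := by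
  obtain ⟨C, hC, h⟩ := Pool.Agent.X119.Dens.dens (1 / 2) (by norm_num) (by norm_num) (ε / 2) (by positivity)
  refine ⟨C, hC, fun δ hδ => ?_⟩
  obtain ⟨B, hB⟩ := h δ hδ
  refine ⟨B, ?_⟩
  obtain ⟨X₀, hX₀⟩ := eventually_atTop.1 hB
  filter_upwards [eventually_ge_atTop (max X₀ 3)] with n hn
  have hn0 : X₀ ≤ n := (le_max_left _ _).trans hn
  have hn3 : 3 ≤ n := (le_max_right _ _).trans hn
  have hsq : 3 * n ≤ n ^ 2 := by nlinarith
  have hnr : (3 : ℝ) ≤ n := by exact_mod_cast hn3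
  have hl0 : 0 < Real.log n := Real.log_pos (by linarith)
  have hXn : n ≤ n ^ 2 - n := by omega
  have hXpos : (0 : ℝ) < ((n ^ 2 - n : ℕ) : ℝ) := by
    have : (0 : ℕ) < n ^ 2 - n := by omega
    exact_mod_cast this
  have hXle : ((n ^ 2 - n : ℕ) : ℝ) ≤ (n : ℝ) ^ 2 := by
    have : n ^ 2 - n ≤ n ^ 2 := Nat.sub_le _ _
    exact_mod_cast this
  have hl1 : Real.log n ≤ Real.log ((n ^ 2 - n : ℕ) : ℝ) := by
    apply Real.log_le_log (by linarith)
    exact_mod_cast hXn
  have hl2 : Real.log ((n ^ 2 - n : ℕ) : ℝ) ≤ 2 * Real.log n := by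
    have := Real.log_le_log hXpos hXle
    rw [Real.log_pow] at this
    push_cast at this ⊢
    exact this
  have hpow : ((n ^ 2 - n : ℕ) : ℝ) ^ ((1 : ℝ) / 2) ≤ ((2 * n : ℕ) : ℝ) := by
    calc ((n ^ 2 - n : ℕ) : ℝ) ^ ((1 : ℝ) / 2) ≤ ((n : ℝ) ^ 2) ^ ((1 : ℝ) / 2) :=
          Real.rpow_le_rpow hXpos.le hXle (by norm_num)
      _ = n := by
          rw [← Real.rpow_natCast, ← Real.rpow_mul (by linarith)]
          norm_num
      _ ≤ ((2 * n : ℕ) : ℝ) := by
          push_cast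
          linarith
  have h3 := hX₀ (n ^ 2 - n) (hn0.trans hXn) (2 * n) hpow (by omega) (Real.log n) hl1 hl2
  rw [show n ^ 2 - n + 2 * n = n ^ 2 + n by omega] at h3
  refine le_trans (Nat.cast_le.2 (card_le_card ?_)) (h3.trans (le_of_eq ?_))
  · intro p hp
    rw [mem_filter] at hp ⊢
    refine ⟨hp.1, hp.2.1, fun hall => hp.2.2 ?_⟩
    obtain ⟨ho, hb⟩ := hall
    constructor
    · intro h hh hhn
      exact ho h hh (by omega)
    · refine le_trans ?_ hb
      unfold badScales Pool.Agent.X119.Dens.badScales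
      apply card_le_card
      intro j hj
      rw [mem_filter, mem_range] at hj ⊢
      refine ⟨lt_of_lt_of_le hj.1 ?_, hj.2.1, fun hc => hj.2.2 hc⟩
      exact Nat.succ_le_succ (Nat.log_mono_right (by omega))
  · push_cast
    ring

end Pool.Agent.Results.MP_a8fbd7_nt.BalancedDensities
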