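import Mathlib
import Pool.Agent.X58.IV.Pat

set_option autoImplicit false

/-!
# Patterns of almost primes spread over both Oppermann intervals

`S` is an arbitrary admissible set of at most `k` shifts and `(A, A + X]` an arbitrary window of length
`X ≥ N ^ θ`, such that each shift moves the window into one of the two intervals `(N² - N, N²)` and
`(N², N² + N)` (for instance `S = {0, M}`, `M` even: `q` in the first and `q + M` in the second interval).
The number of the `q` of the window for which ALL `q + a`, `a ∈ S`, are products of at most `3 t` primes, all of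
them `> N ^ (1 / t)`, has the conjectured order of magnitude of the number of the `q` with all `q + a` prime,
and every subset of positive relative density contains arithmetic progressions of any length `m` with
differences `≤ (log N) ^ B`.  All constants are uniform in `N`, the window and the pattern.
-/

namespace Pool.Agent.Results.MP_a8fbd7_nt.BothIntervalsAtOnce

open Finset Pool.Agent.X58.IV

theorem result (k : ℕ) (θ : ℝ) (hθ : 0 < θ) : ∃ (t₀ : ℕ) (c : ℝ), 1 ≤ t₀ ∧ 0 < c ∧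
    ∀ t : ℕ, t₀ ≤ t → ∃ C : ℝ, 0 < C ∧ ∀ (m : ℕ) (ρ : ℝ), 0 < ρ → ∃ B N₀ : ℕ, ∀ N A X : ℕ, N₀ ≤ N →
      (N : ℝ) ^ θ ≤ X → ∀ S : Finset ℕ, S.Nonempty → S.card ≤ k → AdmS S →
      (∀ a ∈ S, (N ^ 2 ≤ A + a + N ∧ A + X + a < N ^ 2) ∨ (N ^ 2 ≤ A + a ∧ A + X + a < N ^ 2 + N)) →
      c / Real.log N ^ k ≤ volS S N ∧
      c * X * volS S N ≤ ((WinS S 3 t N A X).card : ℝ) ∧
      ((WinS S 3 t N A X).card : ℝ) ≤ C * X * volS S N ∧
      ∀ U ⊆ WinS S 3 t N A X, ρ * ((WinS S 3 t N A X).card : ℝ) ≤ U.card →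
        HasAP m (Real.log N ^ B) U := by
  obtain ⟨t₀, c, ht₀, hc, hV, h⟩ := windowS k 3 θ hθ
  refine ⟨t₀, c, ht₀, hc, fun t ht => ?_⟩
  obtain ⟨C, hC, h2⟩ := h t ht
  refine ⟨C, hC, fun m ρ hρ => ?_⟩
  obtain ⟨B, N₀, h3⟩ := h2 m ρ hρ
  refine ⟨B, max N₀ 2, fun N A X hN hX S hS0 hS hadm hval => ?_⟩
  have hN2 : 2 ≤ N := (le_max_right _ _).trans hN
  have hXN : X ≤ N := by
    obtain ⟨a, ha⟩ := hS0
    rcases hval a ha with h4 | h4 <;> omega
  have hN3 : N ^ 2 + N ≤ N ^ 3 := by nlinarith [Nat.pow_le_pow_left hN2 2]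
  have hNN : N + 1 ≤ N ^ 2 := by nlinarith
  refine ⟨hV S hS hadm N hN2, h3 N A X ((le_max_left _ _).trans hN) hX hXN S hS hadm ?_⟩
  intro a ha
  rcases hval a ha with h4 | h4 <;> constructor <;> omega

end Pool.Agent.Results.MP_a8fbd7_nt.BothIntervalsAtOnce
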