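import Pool.Agent.X55.Fam.Adm

/-!
# Rough numbers and almost primes with prescribed digital functions in short parts of the Oppermann intervals

Let `S` be a strongly `b`-additive function with values in a finite abelian group `G` (for example the sum of the
digits in base `b`, or any vector of numbers of occurrences of nonzero digits, modulo some integers), which is not
degenerate: no nontrivial character of the group makes it a function of the residue of `n` modulo `b - 1`.
We consider the integers `n` with `S n = g` in an interval `(M, M + H]` within `[N ^ 2 - N, N ^ 2 + N]` (for example in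
one of the Oppermann intervals, or in a short part of it). The number of those without a prime factor up to `y` is
given by an asymptotic formula, with the main term `H / |G|` times the product over the primes `q ≤ y` of `1 - 1 / q`;
the number of those which have a bounded number of prime factors, all greater than `H ^ δ`, has the expected order of
magnitude, and the number of primes among them is at most of this order.
The proof combines a sieve which is uniform in the removed residue classes and the exponential sums of digital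
functions (in the starting files), over the blocks of a short interval.
-/

set_option autoImplicit false

namespace Pool.Agent.Results.MP_a8fbd7_nt.DigitalFunctions

open Finset Pool.Agent.X55.Forms

/-- the coefficient of the form -/
def ca : Fin 1 → ℤ := ![1]

/-- the constant of the form `n` -/
def cb : Fin 1 → ℤ := ![0]

lemma ca_ne (i : Fin 1) : ca i ≠ 0 := by
  fin_cases i
  simp [ca]

lemma adm : Admissible ca cb := by
  intro q hq
  refine ⟨1, fun i => ?_⟩
  fin_cases i
  show ¬ (q : ℤ) ∣ 1 * ((1 : ℕ) : ℤ) + 0
  simpa using not_dvd_unit hq (Or.inl rfl)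

theorem result : ∀ (G : Type) [AddCommGroup G] [Fintype G] (b : ℕ) (S : ℕ → G), 2 ≤ b → Digital b S → 
    (∀ B : ℕ, ∃ (r : ℕ) (δ c C : ℝ) (H₀ : ℕ), 0 < δ ∧ 0 < c ∧ 0 < C ∧
      ∀ H : ℕ, H₀ ≤ H → ∀ (N : ℕ),  ∀ (M : ℕ) (g : G), N ^ 2 - N ≤ M ∧ M + H ≤ N ^ 2 + N → 
      Bounds (ca) (cb) H r δ c C B M H (fun n => S n = g) (H / Fintype.card G)) ∧
    -- the asymptotic formula
    (∀ η : ℝ, 0 < η → ∃ (δ : ℝ) (H₀ : ℕ), 0 < δ ∧
      ∀ H : ℕ, H₀ ≤ H → ∀ (N : ℕ),  ∀ (M : ℕ) (g : G), N ^ 2 - N ≤ M ∧ M + H ≤ N ^ 2 + N → 
      ∀ y : ℕ, 3 ≤ y → (y : ℝ) ≤ (H : ℝ) ^ δ →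
      Rough (ca) (cb) η y M H (fun n => S n = g) (H / Fintype.card G)) := by
  intro G _ _ b S hb hS 
  refine ⟨fun B => ?_, fun η hη => ?_⟩
  · obtain ⟨r, δ, c, C, H₀, hδ, hc, hC, h⟩ := digital b hb S hS (1) (by norm_num) B
    refine ⟨r, δ, c, C, H₀, hδ, hc, hC, ?_⟩
    intro H hH N  M g _
    exact h H hH (ca) (cb) (ca_ne) (adm) M g
  · obtain ⟨δ, H₀, hδ, h⟩ := digitalA b hb S hS (1) (by norm_num) η hη
    refine ⟨δ, H₀, hδ, ?_⟩
    intro H hH N  M g _ y hy hyH
    exact h H hH (ca) (cb) (adm) M g y hy hyH

end Pool.Agent.Results.MP_a8fbd7_nt.DigitalFunctions
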