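import Pool.Agent.X220.FP.Cor
import Pool.Agent.X220.FP.Alg

/-!
# Rough numbers, almost primes and primes with prescribed fractional parts next to the squares

Let `P_1, …, P_s` be real polynomials of degree at most `k ≥ 1` whose vector of the coefficients of `x ^ k` is of finite
type: the distance of `h_1 α_1 + … + h_s α_s` to the nearest integer is at least `c₀ / |h| ^ τ` for all nonzero integral
vectors `h` (for example `α_1, …, α_s` are algebraic and `1, α_1, …, α_s` are linearly independent over the rational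
numbers). For all large `n` we consider the numbers `m` in each of the intervals `(n ^ 2 - n, n ^ 2]` and
`(n ^ 2, n ^ 2 + n]` for which all the fractional parts of `P_i(m) - u_i` are less than `ρ_i`, where the `ρ_i` may be as
small as `n ^ (-δ)`.
* The number of those of them with a bounded number of prime factors, all greater than `n ^ δ`, has the expected order
  `ρ_1 … ρ_s n / log n` of magnitude.
* The number of primes among them is at most of this order.
* The number of those without prime factors up to `y` is `ρ_1 … ρ_s n ∏ (1 - 1 / q)` up to a small relative error.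

All this is uniform in the polynomials and in the boxes. The proof combines the fundamental lemma of the sieve, Mertens'
theorem (in the starting files), Weyl's inequality, and Liouville's inequality for norms.
-/

set_option autoImplicit false

namespace Pool.Agent.Results.MP_a8fbd7_nt.FractionalParts

open Finset Polynomial

/-- the vector `α` is of finite type, with the constants `c₀` and `τ` -/
def FiniteType {s : ℕ} (c₀ : ℝ) (τ : ℕ) (α : Fin s → ℝ) : Prop :=
  ∀ h : Fin s → ℤ, h ≠ 0 → ∀ a : ℤ, c₀ ≤ (∑ i, |(h i : ℝ)|) ^ τ * |(∑ i, h i * α i) - a|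

/-- all the fractional parts of `P_i(m) - u_i` are less than `ρ_i` -/
def InBox {s : ℕ} (P : Fin s → ℝ[X]) (u ρ : Fin s → ℝ) (m : ℕ) : Prop :=
  ∀ i, Int.fract ((P i).eval (m : ℝ) - u i) < ρ i

/-- `m ≠ 0` has at most `r` prime factors, counted with multiplicity, all of them greater than `x`. -/
def AlmostPrime (r : ℕ) (x : ℝ) (m : ℕ) : Prop :=
  m ≠ 0 ∧ m.primeFactorsList.length ≤ r ∧ ∀ q : ℕ, q.Prime → q ∣ m → x < q

/-- the number of the `m` in `(M, M + n]` with the properties `R` and `Q` -/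
noncomputable def count (M n : ℕ) (R Q : ℕ → Prop) : ℕ := Set.ncard {m : ℕ | M < m ∧ m ≤ M + n ∧ R m ∧ Q m}

/-- the statement holds for the intervals `(n ^ 2 - n, n ^ 2]` and `(n ^ 2, n ^ 2 + n]` -/
def InBoth (n : ℕ) (S : ℕ → Prop) : Prop := S (n ^ 2 - n) ∧ S (n ^ 2)

/-- the product of `1 - 1 / q` over the primes `q ≤ y` -/
noncomputable def V (y : ℕ) : ℝ := ∏ q ∈ (Icc 1 y).filter Nat.Prime, (1 - 1 / (q : ℝ))

/-- the polynomials -/
noncomputable def f : Fin 1 → ℤ[X] := ![C 1 * X + C 0]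

/-- their values -/
def G : Fin 1 → ℤ → ℤ := ![fun n => 1 * n + 0]

/-- the values at natural numbers -/
def F : Fin 1 → ℕ → ℕ := ![fun n => n]

lemma f_eval (i : Fin 1) (n : ℤ) : (f i).eval n = G i n := by
  fin_cases i <;> simp [f, G]

lemma f_deg (i : Fin 1) : (f i).natDegree = (![1] : Fin 1 → ℕ) i := by
  fin_cases i
  · show (C 1 * X + C 0 : ℤ[X]).natDegree = 1
    exact natDegree_linear (by norm_num)

lemma f_sys : Pool.Agent.X55.Fam.Sys 1 f := by
  refine Pool.Agent.X55.Fam.Sys.mk' ?_ ?_ ?_ 1 ?_ ?_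
  · intro i
    fin_cases i
    · show Irreducible (C 1 * X + C 0 : ℤ[X])
      exact Pool.Agent.X55.Fam.lin_irr _ _ (by norm_num) (fun d h1 h2 => isUnit_of_dvd_one (by have := dvd_add (h1.mul_left (1)) (h2.mul_left (-1)); norm_num at this; exact this))
  · intro i
    rw [f_deg]
    fin_cases i <;> norm_num
  · intro i j hij
    fin_cases i <;> fin_cases j <;>
      first
      | exact absurd rfl hij
      | exact Pool.Agent.X55.Fam.not_assoc 0 (by rw [f_eval, f_eval]; norm_num [G])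
  · simp [Fin.sum_univ_succ, f_deg]
  · intro p hp hp2
    interval_cases p
    · exact absurd hp (by norm_num)
    · exact absurd hp (by norm_num)

lemma hF (i : Fin 1) (n : ℕ) : ((f i).eval (n : ℤ)).natAbs = F i n := by
  rw [f_eval]
  fin_cases i
  · show (1 * (n : ℤ) + 0).natAbs = n
    rw [show (1 * (n : ℤ) + 0) = ((n : ℕ) : ℤ) by push_cast; ring, Int.natAbs_natCast]


lemma V_eq (y : ℕ) : ∏ q ∈ (Icc 1 y).filter Nat.Prime, (1 - (Set.ncard {a : ℕ | a < q ∧ q ∣ a} : ℝ) / q) = V y := by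
  unfold V
  refine prod_congr rfl fun q hq => ?_
  have hq' := (mem_filter.1 hq).2
  have : {a : ℕ | a < q ∧ q ∣ a} = {0} := by
    ext a
    constructor
    · rintro ⟨h1, h2⟩
      exact Nat.eq_zero_of_dvd_of_lt h2 h1
    · rintro rfl
      exact ⟨hq'.pos, dvd_zero _⟩
  rw [this, Set.ncard_singleton]
  simp

theorem result : (∀ (s k τ : ℕ) (c₀ : ℝ), 1 ≤ k → 0 < c₀ →
    (∃ (r : ℕ) (δ c C : ℝ) (n₀ : ℕ), 0 < δ ∧ 0 < c ∧ 0 < C ∧
      ∀ n : ℕ, n₀ ≤ n → ∀ P : Fin s → ℝ[X], (∀ i, (P i).natDegree ≤ k) → FiniteType c₀ τ (fun i => (P i).coeff k) →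
      ∀ u ρ : Fin s → ℝ, (∀ i, (n : ℝ) ^ (-δ) ≤ ρ i ∧ ρ i ≤ 1) →
      InBoth n (fun M => c * (n * ∏ i, ρ i) / Real.log n ≤ count M n (InBox P u ρ) (AlmostPrime r ((n : ℝ) ^ δ)) ∧
        (count M n (InBox P u ρ) Nat.Prime : ℝ) ≤ C * (n * ∏ i, ρ i) / Real.log n)) ∧
    (∀ η : ℝ, 0 < η → ∃ (δ : ℝ) (n₀ : ℕ), 0 < δ ∧
      ∀ n : ℕ, n₀ ≤ n → ∀ P : Fin s → ℝ[X], (∀ i, (P i).natDegree ≤ k) → FiniteType c₀ τ (fun i => (P i).coeff k) →
      ∀ u ρ : Fin s → ℝ, (∀ i, (n : ℝ) ^ (-δ) ≤ ρ i ∧ ρ i ≤ 1) → ∀ y : ℕ, 3 ≤ y → (y : ℝ) ≤ (n : ℝ) ^ δ →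
      InBoth n (fun M => |(count M n (InBox P u ρ) (fun m => ∀ q : ℕ, q.Prime → q ≤ y → ¬ q ∣ m) : ℝ) -
        (n * ∏ i, ρ i) * V y| ≤ η * ((n * ∏ i, ρ i) * V y)))) ∧
    -- algebraic numbers
    (∀ (s : ℕ) (α : Fin s → ℝ), (∀ i, IsAlgebraic ℚ (α i)) →
      (∀ (h : Fin s → ℤ) (a : ℤ), ∑ i, (h i : ℝ) * α i = a → h = 0) →
      ∃ (c₀ : ℝ) (τ : ℕ), 0 < c₀ ∧ FiniteType c₀ τ α) := by
  refine ⟨fun s k τ c₀ hk hc₀ => ⟨?_, ?_⟩, fun s α hα hind => Pool.Agent.X220.FP.liouville_vec s α hα hind⟩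
  · obtain ⟨r, δ, c, C, H₀, hδ, hc, hC, h⟩ := Pool.Agent.X220.FP.fp_both s k τ hk c₀ hc₀ f_sys F hF 3
    refine ⟨r, δ, c, C, max H₀ 2, hδ, hc, hC, fun n hn P hP hFT u ρ hρ => ?_⟩
    have h2 : 2 ≤ n := (le_max_right _ _).trans hn
    have key : ∀ M : ℕ, M ≤ n ^ 2 →
        c * (n * ∏ i, ρ i) / Real.log n ≤ count M n (InBox P u ρ) (AlmostPrime r ((n : ℝ) ^ δ)) ∧
        (count M n (InBox P u ρ) Nat.Prime : ℝ) ≤ C * (n * ∏ i, ρ i) / Real.log n := by
      intro M hM
      have h3 := h n ((le_max_left _ _).trans hn) P hP hFT u ρ hρ M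
      unfold Pool.Agent.X55.Fam.Both at h3
      have hle : M + n ≤ n ^ 3 := by nlinarith
      have h4 := h3.1 hle
      have h5 := h3.2
      simp only [F, Pool.Agent.X55.Fam.Good, Fin.forall_fin_one, Matrix.cons_val_fin_one, pow_one] at h4 h5
      exact ⟨h4, h5⟩
    exact ⟨key _ (Nat.sub_le _ _), key _ le_rfl⟩
  · intro η hη
    obtain ⟨δ, H₀, hδ, h⟩ := Pool.Agent.X220.FP.fp_asym s k τ hk c₀ hc₀ f_sys F hF η hη
    refine ⟨δ, H₀, hδ, fun n hn P hP hFT u ρ hρ y hy hyn => ?_⟩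
    have key : ∀ M : ℕ, |(count M n (InBox P u ρ) (fun m => ∀ q : ℕ, q.Prime → q ≤ y → ¬ q ∣ m) : ℝ) -
        (n * ∏ i, ρ i) * V y| ≤ η * ((n * ∏ i, ρ i) * V y) := by
      intro M
      have h3 := h n hn P hP hFT u ρ hρ M y hy hyn
      unfold Pool.Agent.X55.Fam.Asym at h3
      simp only [F, Fin.forall_fin_one, Fin.exists_fin_one, Matrix.cons_val_fin_one] at h3
      rw [V_eq] at h3
      exact h3
    exact ⟨key _, key _⟩

end Pool.Agent.Results.MP_a8fbd7_nt.FractionalParts
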